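import Mathlib
import Pool.Agent.Q168.Walsh2

/-! The Walsh-Cesàro means `σ^α_{2^n}` are not uniformly bounded from `H_p` to `L_p`,
`p = 1/(1+α)`, for any `α ∈ (0,1)`. -/

open MeasureTheory Set Filter Finset
open scoped ENNReal NNReal Nat

noncomputable section

namespace Pool.Agent.Results.MP_b4b6e5_an.CesaroEndpointUnbounded

open Pool.Agent.Q168.Mono Pool.Agent.Q168.Walsh

/-- `A_n^α = (α+1)⋯(α+n)/n!` -/
def A (α : ℝ) (n : ℕ) : ℝ := (∏ i ∈ range n, (α + (i + 1))) / n !

/-- the Cesàro means `σ_n^α f = (1/A_n^α) ∑_{k=1}^n A_{n-k}^{α-1} S_k f` -/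
def sigma (α : ℝ) (n : ℕ) (f : ℕ → G → ℝ) (x : G) : ℝ :=
  (A α n)⁻¹ * ∑ k ∈ Finset.Icc 1 n, A (α - 1) (n - k) * S f k x

lemma A_zero (α : ℝ) : A α 0 = 1 := by simp [A]

lemma A_succ (α : ℝ) (n : ℕ) : A α (n + 1) = A α n * (1 + α / (n + 1)) := by
  unfold A
  rw [Finset.prod_range_succ, Nat.factorial_succ]
  push_cast
  have h1 : ((n : ℝ) + 1) ≠ 0 := by positivity
  have h2 : ((n ! : ℕ) : ℝ) ≠ 0 := by positivity
  field_simp
  ring

lemma iter_A (α : ℝ) (n : ℕ) : ∀ j : ℕ, (dl^[n] (A (α - 1))) j =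
    (∏ i ∈ range n, ((i : ℝ) + 1 - α)) * (∏ i ∈ range j, (α + i)) / (j + n)! := by
  induction n with
  | zero =>
    intro j
    simp only [Function.iterate_zero, id, A, Finset.range_zero, Finset.prod_empty, one_mul,
      Nat.add_zero]
    congr 1
    apply Finset.prod_congr rfl
    intro i _
    ring
  | succ n ih =>
    intro j
    rw [Function.iterate_succ_apply', dl, ih, ih, Finset.prod_range_succ, Finset.prod_range_succ]
    have e1 : j + 1 + n = (j + n) + 1 := by ring
    have e2 : j + (n + 1) = (j + n) + 1 := by ring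
    rw [e1, e2, Nat.factorial_succ]
    push_cast
    have h1 : ((j : ℝ) + n + 1) ≠ 0 := by positivity
    have h2 : (((j + n) ! : ℕ) : ℝ) ≠ 0 := by positivity
    field_simp
    ring

lemma cm_A (α : ℝ) (h0 : 0 < α) (h1 : α < 1) : IsCM (A (α - 1)) := by
  intro n j
  rw [iter_A]
  apply div_nonneg _ (by positivity)
  apply mul_nonneg
  · apply Finset.prod_nonneg
    intro i _
    have : (0 : ℝ) ≤ i := Nat.cast_nonneg i
    linarith
  · apply Finset.prod_nonneg
    intro i _
    positivity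

lemma bern (θ : ℝ) (h0 : 0 < θ) (h1 : θ < 1) (n : ℕ) :
    ((n : ℝ) / (n + 1)) ^ θ ≤ 1 - θ / (n + 1) := by
  have h := rpow_one_add_le_one_add_mul_self (s := -1 / ((n : ℝ) + 1)) (p := θ)
    (by
      rw [le_div_iff₀ (by positivity)]
      have : (0 : ℝ) ≤ n := Nat.cast_nonneg n
      linarith) h0.le h1.le
  have e1 : 1 + -1 / ((n : ℝ) + 1) = n / (n + 1) := by
    field_simp
    ring
  rw [e1] at h
  calc _ ≤ _ := h
    _ = _ := by ring

lemma A_low (α : ℝ) (h0 : 0 < α) (h1 : α < 1) (j : ℕ) :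
    α * ((j : ℝ) + 1) ^ (α - 1) ≤ A (α - 1) (j + 1) := by
  induction j with
  | zero => simp [A]
  | succ j ih =>
    rw [A_succ]
    push_cast at ih ⊢
    have hb := bern (1 - α) (by linarith) (by linarith) (j + 1)
    push_cast at hb
    have e1 : (1 : ℝ) + (α - 1) / (j + 1 + 1) = 1 - (1 - α) / (j + 1 + 1) := by ring
    rw [e1]
    calc α * ((j : ℝ) + 1 + 1) ^ (α - 1) =
        α * ((j : ℝ) + 1) ^ (α - 1) * (((j : ℝ) + 1) / (j + 1 + 1)) ^ (1 - α) := by
          rw [Real.div_rpow (by positivity) (by positivity), mul_assoc, ← mul_div_assoc,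
            ← Real.rpow_add (by positivity)]
          have e2 : α - 1 + (1 - α) = 0 := by ring
          rw [e2, Real.rpow_zero]
          have e3 : α - 1 = -(1 - α) := by ring
          rw [e3, Real.rpow_neg (by positivity), one_div]
      _ ≤ A (α - 1) (j + 1) * (1 - (1 - α) / (j + 1 + 1)) := by
          apply mul_le_mul ih hb (by positivity)
          exact cm_nonneg (cm_A α h0 h1) _

lemma A_up (α : ℝ) (h0 : 0 < α) (h1 : α < 1) (j : ℕ) :
    A (α - 1) j ≤ 1 * ((j : ℝ) + 1) ^ (α - 1) := by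
  induction j with
  | zero => simp [A]
  | succ j ih =>
    rw [A_succ, one_mul]
    rw [one_mul] at ih
    push_cast
    have hj : (0 : ℝ) < (j : ℝ) + 1 := by positivity
    have hb := rpow_one_add_le_one_add_mul_self (s := 1 / ((j : ℝ) + 1)) (p := 1 - α)
      (by have : 0 < 1 / ((j : ℝ) + 1) := by positivity
          linarith) (by linarith) (by linarith)
    have e1 : 1 + 1 / ((j : ℝ) + 1) = (j + 1 + 1) / (j + 1) := by field_simp
    rw [e1] at hb
    set t : ℝ := (1 - α) / (j + 1) with ht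
    have ht0 : 0 < t := by
      apply div_pos (by linarith) hj
    have ht1 : t < 1 := by
      rw [ht, div_lt_one hj]
      have : (0 : ℝ) ≤ j := Nat.cast_nonneg j
      linarith
    have e2 : 1 + (1 - α) * (1 / ((j : ℝ) + 1)) = 1 + t := by rw [ht]; ring
    rw [e2] at hb
    have e3 : (1 : ℝ) + (α - 1) / (j + 1) = 1 - t := by rw [ht]; ring
    rw [e3]
    have h3 : (1 - t) ≤ (((j : ℝ) + 1 + 1) / (j + 1)) ^ (α - 1) := by
      have e4 : α - 1 = -(1 - α) := by ring
      rw [e4, Real.rpow_neg (by positivity)]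
      rw [← one_div, le_div_iff₀ (by positivity)]
      calc (1 - t) * (((j : ℝ) + 1 + 1) / (j + 1)) ^ (1 - α) ≤ (1 - t) * (1 + t) :=
            mul_le_mul_of_nonneg_left hb (by linarith)
        _ ≤ 1 := by nlinarith
    calc A (α - 1) j * (1 - t) ≤
        ((j : ℝ) + 1) ^ (α - 1) * (((j : ℝ) + 1 + 1) / (j + 1)) ^ (α - 1) := by
          apply mul_le_mul ih h3 (by linarith) (by positivity)
      _ = ((j : ℝ) + 1 + 1) ^ (α - 1) := by
          rw [← Real.mul_rpow (by positivity) (by positivity)]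
          congr 1
          field_simp

lemma A_norm (α : ℝ) (h0 : 0 < α) (h1 : α < 1) (n : ℕ) :
    A α (n + 1) ≤ (1 + α) * (((n + 1 : ℕ) : ℝ)) ^ α := by
  induction n with
  | zero => simp [A]; linarith
  | succ n ih =>
    rw [A_succ]
    push_cast at ih ⊢
    have hb := bern α h0 h1 (n + 1)
    push_cast at hb
    set t : ℝ := α / (n + 1 + 1) with ht
    have hn : (0 : ℝ) < (n : ℝ) + 1 + 1 := by positivity
    have ht0 : 0 < t := by positivity
    have ht1 : t < 1 := by
      rw [ht, div_lt_one hn]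
      have : (0 : ℝ) ≤ n := Nat.cast_nonneg n
      linarith
    have h3 : 1 + t ≤ (((n : ℝ) + 1 + 1) / (n + 1)) ^ α := by
      have e1 : (((n : ℝ) + 1 + 1) / (n + 1)) ^ α = ((((n : ℝ) + 1) / (n + 1 + 1)) ^ α)⁻¹ := by
        rw [← Real.inv_rpow (by positivity), inv_div]
      rw [e1, ← one_div, le_div_iff₀ (by positivity)]
      calc (1 + t) * (((n : ℝ) + 1) / (n + 1 + 1)) ^ α ≤ (1 + t) * (1 - t) :=
            mul_le_mul_of_nonneg_left hb (by linarith)
        _ ≤ 1 := by nlinarith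
    calc A α (n + 1) * (1 + t) ≤
        (1 + α) * ((n : ℝ) + 1) ^ α * (((n : ℝ) + 1 + 1) / (n + 1)) ^ α := by
          apply mul_le_mul ih h3 (by linarith) (by positivity)
      _ = (1 + α) * ((n : ℝ) + 1 + 1) ^ α := by
          rw [mul_assoc, ← Real.mul_rpow (by positivity) (by positivity)]
          congr 2
          field_simp

lemma A_pos (α : ℝ) (h0 : 0 < α) (n : ℕ) : 0 < A α n := by
  unfold A
  apply div_pos _ (by positivity)
  apply Finset.prod_pos
  intro i _
  positivity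

/-- For every `α ∈ (0,1)` and every constant `C` there are a martingale `f ∈ H_{1/(1+α)}` and `n`
with `‖σ^α_{2^n} f‖_{1/(1+α)} > C ‖f‖_{H_{1/(1+α)}}`. -/
theorem result (α : ℝ) (h0 : 0 < α) (h1 : α < 1) (C : ℝ≥0) :
    ∃ f : ℕ → G → ℝ, IsMart f ∧ hp (1 / (1 + α)) f ≠ ∞ ∧
      ∃ n : ℕ, C * hp (1 / (1 + α)) f < lp (1 / (1 + α)) (sigma α (2 ^ n) f) := by
  refine main α h0 h1 (A (α - 1)) (cm_A α h0 h1) α 1 (1 + α) h0 one_pos (by linarith) ?_
    (A_up α h0 h1) (A α) (fun n _ => A_pos α h0 n) ?_ C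
  · intro j
    rcases Nat.eq_zero_or_pos j with rfl | hj
    · simp [A]
      linarith
    · obtain ⟨k, rfl⟩ : ∃ k, j = k + 1 := ⟨j - 1, by omega⟩
      refine le_trans ?_ (A_low α h0 h1 k)
      apply mul_le_mul_of_nonneg_left _ h0.le
      apply Real.rpow_le_rpow_of_nonpos (by positivity) _ (by linarith)
      push_cast
      linarith
  · intro n hn
    obtain ⟨k, rfl⟩ : ∃ k, n = k + 1 := ⟨n - 1, by omega⟩
    exact A_norm α h0 h1 k

end Pool.Agent.Results.MP_b4b6e5_an.CesaroEndpointUnbounded
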